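import Pool.Agent.Helper68.LM2.Geo
import Pool.Agent.Helper29.LM.M_PA
import Pool.Agent.Helper29.LM.M_PH
import Pool.Agent.Helper4.LM.M_BBC
import Pool.Agent.Helper42.LM.M_MZ2
import Pool.Agent.Helper42.LM.M_LC

/-!
# Project LM2 (MP_cb927e_an), module HIB: high frequencies, `p ≥ 2`
-/

set_option autoImplicit false

open MeasureTheory Set Filter Topology
open scoped ENNReal

namespace Pool.Agent.Helper98.LM2

open Pool.Agent.Helper68.LM2 Pool.Agent.Helper68.LM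
open Pool.Agent.Helper29.LM (BB_hi sup_sq)

theorem Em_split (hBBC : StBBC) (ν : Measure Pl) (R L : ℝ) (hν : Bd R L ν) (m : ℕ) (k : ℤ)
    (g g₂ : Pl → ℝ) (hg : BB g) (hg₂ : BB g₂) (x : Pl) :
    Em ν m k g x = Em ν m k (fun y => g y - g₂ y) x + Em ν m k g₂ x := by
  obtain ⟨h1, h2, h3, h4, h5, h6, h7⟩ := hBBC
  have hg₁ := h1 g g₂ hg hg₂
  have e : (fun y => g y - Sm ((2 : ℝ) ^ (k - (m : ℤ))) g y) = fun y =>
      ((g y - g₂ y) - Sm ((2 : ℝ) ^ (k - (m : ℤ))) (fun y => g y - g₂ y) y) +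
        (g₂ y - Sm ((2 : ℝ) ^ (k - (m : ℤ))) g₂ y) := by
    funext y
    have h := h6 (fun y => g y - g₂ y) g₂ ((2 : ℝ) ^ (k - (m : ℤ))) y hg₁ hg₂
    simp only [sub_add_cancel] at h
    rw [h]
    ring
  rw [Em, e]
  exact h7 ν R L _ _ _ x hν (h1 _ _ hg₁ (h2 _ _ hg₁)) (h1 _ _ hg₂ (h2 _ _ hg₂))

theorem Em_meas (hBBC : StBBC) (ν : Measure Pl) (R L : ℝ) (hν : Bd R L ν) (m : ℕ) (k : ℤ)
    (g : Pl → ℝ) (hg : BB g) : Measurable (Em ν m k g) := by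
  obtain ⟨h1, h2, h3, h4, h5, h6, h7⟩ := hBBC
  exact (h3 ν R L ((2 : ℝ) ^ k) _ hν (by positivity) (h1 _ _ hg (h2 _ _ hg))).1

theorem TE_meas (hBBC : StBBC) (ν : Measure Pl) (R L : ℝ) (hν : Bd R L ν) (m : ℕ)
    (g : Pl → ℝ) (hg : BB g) : Measurable (fun x => ⨆ k : ℤ, ‖Em ν m k g x‖ₑ) :=
  Measurable.iSup fun k => (Em_meas hBBC ν R L hν m k g hg).enorm

/-- the `L²` bound for the maximal function of the `Em` -/
theorem TE_two (hBBC : StBBC) (ν : Measure Pl) (R L : ℝ) (hν : Bd R L ν) (m : ℕ) (A : ℝ)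
    (hA : ∀ g : Pl → ℝ, BB g →
      ∑' k : ℤ, ∫⁻ x, ‖Em ν m k g x‖ₑ ^ 2 ≤ ENNReal.ofReal A * ∫⁻ x, ‖g x‖ₑ ^ 2)
    (g : Pl → ℝ) (hg : BB g) :
    ∫⁻ x, (⨆ k : ℤ, ‖Em ν m k g x‖ₑ) ^ 2 ≤ ENNReal.ofReal A * ∫⁻ x, ‖g x‖ₑ ^ 2 := by
  refine le_trans ?_ (hA g hg)
  rw [← lintegral_tsum fun k => ((Em_meas hBBC ν R L hν m k g hg).enorm.pow_const 2).aemeasurable]
  exact lintegral_mono fun x => sup_sq _

/-- the weak type bound -/
theorem TE_weak (hBBC : StBBC) (ν : Measure Pl) (R L : ℝ) (hν : Bd R L ν) (hL : 0 < L) (m : ℕ)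
    (A : ℝ) (hA0 : 0 < A) (hA : ∀ g : Pl → ℝ, BB g →
      ∑' k : ℤ, ∫⁻ x, ‖Em ν m k g x‖ₑ ^ 2 ≤ ENNReal.ofReal A * ∫⁻ x, ‖g x‖ₑ ^ 2)
    (g : Pl → ℝ) (hg : BB g) (hg0 : ∀ x, 0 ≤ g x) (lam : ℝ) (hlam : 0 < lam) :
    volume {x | ENNReal.ofReal lam < ⨆ k : ℤ, ‖Em ν m k g x‖ₑ} ≤
      ENNReal.ofReal (4 * A / lam ^ 2) *
        ∫⁻ x in {x | 1 / (4 * L) * lam < g x}, ENNReal.ofReal (g x) ^ 2 := by
  set c : ℝ := 1 / (4 * L) * lam with hc
  have hc0 : 0 < c := by positivity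
  set g₂ : Pl → ℝ := fun x => if c < g x then g x else 0 with hg₂
  have hB₂ : BB g₂ := BB_hi g hg c
  have hB₁ : BB (fun y => g y - g₂ y) := hBBC.1 g g₂ hg hB₂
  have hg₁ : ∀ x, |g x - g₂ x| ≤ c := by
    intro x
    simp only [hg₂]
    split_ifs with h
    · rw [sub_self, abs_zero]
      exact hc0.le
    · rw [sub_zero, abs_of_nonneg (hg0 x)]
      exact not_lt.1 h
  have hE₁ : ∀ (k : ℤ) (x : Pl), |Em ν m k (fun y => g y - g₂ y) x| ≤ lam / 2 := by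
    intro k x
    have h1 : ∀ y, |(g y - g₂ y) - Sm ((2 : ℝ) ^ (k - (m : ℤ))) (fun y => g y - g₂ y) y| ≤
        2 * c := by
      intro y
      have h2 := hBBC.2.2.2.1 (fun y => g y - g₂ y) c ((2 : ℝ) ^ (k - (m : ℤ))) hg₁ y
      have h3 := abs_sub (g y - g₂ y) (Sm ((2 : ℝ) ^ (k - (m : ℤ))) (fun y => g y - g₂ y) y)
      linarith [hg₁ y]
    have h2 := hBBC.2.2.2.2.1 ν R L ((2 : ℝ) ^ k)
      (fun y => (g y - g₂ y) - Sm ((2 : ℝ) ^ (k - (m : ℤ))) (fun y => g y - g₂ y) y) (2 * c)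
      hν hL.le h1 x
    have h3 : L * (2 * c) = lam / 2 := by
      rw [hc]
      field_simp
      ring
    rw [h3] at h2
    exact h2
  have hsub : {x | ENNReal.ofReal lam < ⨆ k : ℤ, ‖Em ν m k g x‖ₑ} ⊆
      {x | ENNReal.ofReal (lam / 2) ^ 2 ≤ (⨆ k : ℤ, ‖Em ν m k g₂ x‖ₑ) ^ 2} := by
    intro x hx
    rw [mem_setOf_eq, lt_iSup_iff] at hx
    obtain ⟨k, hk⟩ := hx
    rw [Real.enorm_eq_ofReal_abs, ENNReal.ofReal_lt_ofReal_iff_of_nonneg hlam.le] at hk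
    have h1 := Em_split hBBC ν R L hν m k g g₂ hg hB₂ x
    have h2 := abs_add_le (Em ν m k (fun y => g y - g₂ y) x) (Em ν m k g₂ x)
    rw [← h1] at h2
    have h3 : lam / 2 ≤ |Em ν m k g₂ x| := by linarith [hE₁ k x]
    change ENNReal.ofReal (lam / 2) ^ 2 ≤ (⨆ k : ℤ, ‖Em ν m k g₂ x‖ₑ) ^ 2
    refine pow_le_pow_left' ?_ 2
    refine le_trans ?_ (le_iSup (fun k => ‖Em ν m k g₂ x‖ₑ) k)
    rw [Real.enorm_eq_ofReal_abs]
    exact ENNReal.ofReal_le_ofReal h3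
  have h4 := mul_meas_ge_le_lintegral (μ := volume) ((TE_meas hBBC ν R L hν m g₂ hB₂).pow_const 2)
    (ENNReal.ofReal (lam / 2) ^ 2)
  have h5 := TE_two hBBC ν R L hν m A hA g₂ hB₂
  have h6 : ∫⁻ x, ‖g₂ x‖ₑ ^ 2 = ∫⁻ x in {x | c < g x}, ENNReal.ofReal (g x) ^ 2 := by
    rw [← lintegral_indicator (measurableSet_lt measurable_const hg.1)]
    refine lintegral_congr fun x => ?_
    by_cases h : c < g x
    · rw [indicator_of_mem (by exact h)]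
      simp only [hg₂, if_pos h]
      rw [Real.enorm_of_nonneg (hg0 x)]
    · rw [indicator_of_notMem (by exact h)]
      simp only [hg₂, if_neg h]
      simp
  rw [h6] at h5
  have h7 : ENNReal.ofReal (lam / 2) ^ 2 *
      volume {x | ENNReal.ofReal lam < ⨆ k : ℤ, ‖Em ν m k g x‖ₑ} ≤
      ENNReal.ofReal A * ∫⁻ x in {x | c < g x}, ENNReal.ofReal (g x) ^ 2 := by
    refine le_trans ?_ (h4.trans h5)
    gcongr
  have hpos : 0 < (lam / 2) ^ 2 := by positivity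
  rw [← ENNReal.ofReal_pow (by positivity)] at h7
  have h8 : volume {x | ENNReal.ofReal lam < ⨆ k : ℤ, ‖Em ν m k g x‖ₑ} ≤
      ENNReal.ofReal (((lam / 2) ^ 2)⁻¹) * (ENNReal.ofReal A *
        ∫⁻ x in {x | c < g x}, ENNReal.ofReal (g x) ^ 2) := by
    calc volume {x | ENNReal.ofReal lam < ⨆ k : ℤ, ‖Em ν m k g x‖ₑ}
        = ENNReal.ofReal (((lam / 2) ^ 2)⁻¹) * (ENNReal.ofReal ((lam / 2) ^ 2) *
            volume {x | ENNReal.ofReal lam < ⨆ k : ℤ, ‖Em ν m k g x‖ₑ}) := by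
          rw [← mul_assoc, ← ENNReal.ofReal_mul (by positivity), inv_mul_cancel₀ hpos.ne',
            ENNReal.ofReal_one, one_mul]
      _ ≤ _ := by gcongr
  refine h8.trans (le_of_eq ?_)
  rw [← mul_assoc, ← ENNReal.ofReal_mul (by positivity)]
  congr 2
  field_simp
  ring

/-- HIB. -/
theorem hHIB (hLTG : StLTG) : StHIB := by
  have hBBC : StBBC := Helper4.LM.hBBC Helper29.LM.hPH
  have hMZ2 : StMZ2 := Helper42.LM.hMZ2 Helper42.LM.hLC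
  intro p R hp _
  obtain ⟨C, hC0, hC⟩ := hLTG
  rcases hp.eq_or_lt with rfl | hp2
  · refine ⟨C, hC0, fun ν L N m hν hL hD hmN g hg hg0 => ?_⟩
    have h := TE_two hBBC ν R L hν m _ ((hC ν R L N hν hL hD).1 m hmN) g hg
    simp only [ENNReal.rpow_two, Real.rpow_two]
    refine h.trans (le_of_eq ?_)
    congr 1
    · congr 1
      ring
    · refine lintegral_congr fun x => ?_
      rw [Real.enorm_of_nonneg (hg0 x)]
  · obtain ⟨C₂, hC₂, hMZ⟩ := hMZ2 p hp2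
    refine ⟨C₂ * (4 * C * (4 : ℝ) ^ (p - 2)), by positivity,
      fun ν L N m hν hL hD hmN g hg hg0 => ?_⟩
    have hmN' : (m : ℝ) ≤ N := by exact_mod_cast hmN
    have hE : 0 < (N : ℝ) - m + 1 := by linarith
    have hA0 : 0 < C * L ^ 2 * ((N : ℝ) - m + 1) := by positivity
    have h := hMZ g (fun x => ⨆ k : ℤ, ‖Em ν m k g x‖ₑ) (1 / (4 * L))
      (4 * (C * L ^ 2 * ((N : ℝ) - m + 1)))
      hg.1 hg0 (TE_meas hBBC ν R L hν m g hg) (by positivity) (by positivity)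
      (fun lam hlam => TE_weak hBBC ν R L hν hL m _ hA0 ((hC ν R L N hν hL hD).1 m hmN) g hg hg0
        lam hlam)
    refine h.trans (le_of_eq ?_)
    congr 2
    have e1 : (1 / (4 * L)) ^ (2 - p) = (4 : ℝ) ^ (p - 2) * L ^ (p - 2) := by
      rw [one_div, Real.inv_rpow (by positivity), ← Real.rpow_neg (by positivity), neg_sub,
        Real.mul_rpow (by norm_num) hL.le]
    have e2 : L ^ p = L ^ (p - 2) * L ^ 2 := by
      rw [← Real.rpow_two, ← Real.rpow_add hL, sub_add_cancel]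
    rw [e1, e2]
    ring

end Pool.Agent.Helper98.LM2
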